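import Pool.Agent.H95.RQ.Targets2

/-!
# LAM: the lattices `P ^ j Λ`
-/

set_option autoImplicit false

open NumberField NumberField.InfinitePlace IsDedekindDomain

namespace Pool.Agent.H42.RQ

open Pool.Agent.H28.RC Pool.Agent.H95.RQ

lemma exp_bound (y : WithZero (Multiplicative ℤ)) : ∃ c : ℤ, y ≤ WithZero.exp c := by
  rcases eq_or_ne y 0 with h | h
  · exact ⟨0, by rw [h]; simp⟩
  · exact ⟨WithZero.log y, by rw [WithZero.exp_log h]⟩

lemma exp_bound_fin {ι : Type} [Finite ι] (y : ι → WithZero (Multiplicative ℤ)) :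
    ∃ c : ℤ, 0 ≤ c ∧ ∀ i, y i ≤ WithZero.exp c := by
  choose f hf using fun i => exp_bound (y i)
  obtain ⟨M, hM⟩ := Finite.exists_le f
  refine ⟨max M 0, le_max_right _ _, fun i => (hf i).trans ?_⟩
  rw [WithZero.exp_le_exp]
  exact (hM i).trans (le_max_left _ _)

section
variable {F E : Type} [Field F] [NumberField F] [Field E] [NumberField E] [Algebra F E]
  [IsGalois F E]

lemma repr_mul (x y : E) (κ : E ≃ₐ[F] E) :
    (IsGalois.normalBasis F E).repr (x * y) κ =
      ∑ τ, ∑ ρ, (IsGalois.normalBasis F E).repr x τ * (IsGalois.normalBasis F E).repr y ρ *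
        (IsGalois.normalBasis F E).repr
          (IsGalois.normalBasis F E τ * IsGalois.normalBasis F E ρ) κ := by
  have h1 : x * y = ∑ τ, ∑ ρ, ((IsGalois.normalBasis F E).repr x τ *
      (IsGalois.normalBasis F E).repr y ρ) •
        (IsGalois.normalBasis F E τ * IsGalois.normalBasis F E ρ) := by
    conv_lhs => rw [← (IsGalois.normalBasis F E).sum_repr x, ← (IsGalois.normalBasis F E).sum_repr y]
    rw [Finset.sum_mul]
    refine Finset.sum_congr rfl fun τ _ => ?_
    rw [Finset.mul_sum]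
    refine Finset.sum_congr rfl fun ρ _ => ?_
    rw [smul_mul_smul_comm]
  conv_lhs => rw [h1]
  rw [map_sum, Finsupp.finsetSum_apply]
  refine Finset.sum_congr rfl fun τ _ => ?_
  rw [map_sum, Finsupp.finsetSum_apply]
  refine Finset.sum_congr rfl fun ρ _ => ?_
  rw [map_smul, Finsupp.smul_apply, smul_eq_mul]

lemma repr_gal (g : E ≃ₐ[F] E) (x : E) (τ : E ≃ₐ[F] E) :
    (IsGalois.normalBasis F E).repr (g x) τ = (IsGalois.normalBasis F E).repr x (g⁻¹ * τ) := by
  have h1 : g x = ∑ τ, (IsGalois.normalBasis F E).repr x τ • IsGalois.normalBasis F E (g * τ) := by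
    conv_lhs => rw [← (IsGalois.normalBasis F E).sum_repr x]
    rw [map_sum]
    refine Finset.sum_congr rfl fun τ _ => ?_
    rw [Algebra.smul_def, map_mul, AlgEquiv.commutes, ← Algebra.smul_def,
      IsGalois.normalBasis_apply τ, IsGalois.normalBasis_apply (g * τ)]
    rfl
  have h2 : g x = ∑ τ, (IsGalois.normalBasis F E).repr x (g⁻¹ * τ) • IsGalois.normalBasis F E τ := by
    rw [h1]
    refine Fintype.sum_equiv (Equiv.mulLeft g) _ _ fun τ => ?_
    simp
  conv_lhs => rw [h2]
  rw [map_sum, Finsupp.finsetSum_apply]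
  rw [Finset.sum_eq_single τ]
  · rw [map_smul, Module.Basis.repr_self, Finsupp.smul_apply, Finsupp.single_eq_same, smul_eq_mul,
      mul_one]
  · intro ρ _ hρ
    rw [map_smul, Module.Basis.repr_self, Finsupp.smul_apply, Finsupp.single_eq_of_ne hρ.symm,
      smul_zero]
  · intro h
    exact absurd (Finset.mem_univ _) h

lemma repr_alg : ∃ t0 : F, t0 ≠ 0 ∧ ∀ (a : F) (τ : E ≃ₐ[F] E),
    (IsGalois.normalBasis F E).repr (algebraMap F E a) τ = a / t0 := by
  have h0 : algebraMap F E (Algebra.trace F E (IsGalois.normalBasis F E 1)) =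
      ∑ τ : E ≃ₐ[F] E, IsGalois.normalBasis F E τ := by
    rw [trace_eq_sum_automorphisms]
    exact Finset.sum_congr rfl fun τ _ => (IsGalois.normalBasis_apply τ).symm
  have h1 : ∀ τ : E ≃ₐ[F] E, (IsGalois.normalBasis F E).repr
      (∑ τ : E ≃ₐ[F] E, IsGalois.normalBasis F E τ) τ = 1 := by
    intro τ
    rw [map_sum, Finsupp.finsetSum_apply, Finset.sum_eq_single τ]
    · rw [Module.Basis.repr_self, Finsupp.single_eq_same]
    · intro ρ _ hρ
      rw [Module.Basis.repr_self, Finsupp.single_eq_of_ne hρ.symm]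
    · intro h
      exact absurd (Finset.mem_univ _) h
  have h2 : Algebra.trace F E (IsGalois.normalBasis F E 1) ≠ 0 := by
    intro h
    rw [h, map_zero] at h0
    have h3 := h1 1
    rw [← h0, map_zero, Finsupp.zero_apply] at h3
    exact zero_ne_one h3
  refine ⟨_, h2, fun a τ => ?_⟩
  have h4 : algebraMap F E a = (a / Algebra.trace F E (IsGalois.normalBasis F E 1)) •
      ∑ τ : E ≃ₐ[F] E, IsGalois.normalBasis F E τ := by
    rw [← h0, Algebra.smul_def, ← map_mul, div_mul_cancel₀ _ h2]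
  rw [h4, map_smul, Finsupp.smul_apply, h1, smul_eq_mul, mul_one]

end

theorem pf_LAM : T_LAM := by
  intro F E _ _ _ _ _ _ P
  refine ⟨?_, ?_, ?_, ?_, ?_, ?_, ?_, ?_⟩
  · intro j x y hx hy τ
    rw [map_add, Finsupp.add_apply]
    exact Valuation.map_add_le _ (hx τ) (hy τ)
  · intro j x hx τ
    rw [map_neg, Finsupp.neg_apply, Valuation.map_neg]
    exact hx τ
  · intro j τ
    rw [map_zero, Finsupp.zero_apply, map_zero]
    simp
  · intro i j x hij hx τ
    refine (hx τ).trans ?_
    rw [WithZero.exp_le_exp]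
    omega
  · intro j g x hx τ
    rw [repr_gal]
    exact hx _
  · obtain ⟨c, hc0, hc⟩ := exp_bound_fin (ι := (E ≃ₐ[F] E) × (E ≃ₐ[F] E) × (E ≃ₐ[F] E))
      fun p => P.valuation F ((IsGalois.normalBasis F E).repr
        (IsGalois.normalBasis F E p.1 * IsGalois.normalBasis F E p.2.1) p.2.2)
    refine ⟨c, hc0, fun i j x y hx hy κ => ?_⟩
    rw [repr_mul]
    refine Valuation.map_sum_le _ fun τ _ => Valuation.map_sum_le _ fun ρ _ => ?_
    rw [map_mul, map_mul]
    have h1 : WithZero.exp (-(i + j - c)) = (WithZero.exp (-i) * WithZero.exp (-j)) *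
        WithZero.exp c := by
      rw [← WithZero.exp_add, ← WithZero.exp_add]
      congr 1
      ring
    rw [h1]
    exact mul_le_mul' (mul_le_mul' (hx τ) (hy ρ)) (hc (τ, ρ, κ))
  · obtain ⟨t0, ht0, h⟩ := repr_alg (F := F) (E := E)
    have hv : P.valuation F t0 ≠ 0 := (Valuation.ne_zero_iff _).2 ht0
    refine ⟨-WithZero.log (P.valuation F t0), fun j a => ?_⟩
    have h1 : WithZero.exp (-(j + -WithZero.log (P.valuation F t0))) =
        WithZero.exp (-j) * P.valuation F t0 := by
      conv_rhs => rw [← WithZero.exp_log hv]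
      rw [← WithZero.exp_add]
      congr 1
      ring
    have h2 : P.valuation F (a / t0) ≤ WithZero.exp (-j) ↔
        P.valuation F a ≤ WithZero.exp (-j) * P.valuation F t0 := by
      rw [map_div₀, div_le_iff₀ (zero_lt_iff.2 hv)]
    rw [h1, ← h2]
    constructor
    · intro hj
      have h3 := hj 1
      rwa [h] at h3
    · intro hj τ
      rw [h]
      exact hj
  · intro x
    obtain ⟨c, -, hc⟩ := exp_bound_fin fun τ => P.valuation F ((IsGalois.normalBasis F E).repr x τ)
    exact ⟨-c, fun τ => by rw [neg_neg]; exact hc τ⟩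

end Pool.Agent.H42.RQ
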