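import Pool.Agent.H32.RQ.Targets

/-!
MP_63b6b1_nt, board hpq_modules, row RZB: real zeros of norm one.
-/

set_option autoImplicit false

namespace Pool.Agent.H42.RQ

open Finset Pool.Agent.H32.RQ

theorem qf_smul {s : ℕ} (f : Mon s → ℝ) (x : Fin s → ℝ) (t : ℝ) :
    qf f (fun j => t * x j) = t ^ 2 * qf f x := by
  unfold qf
  rw [mul_sum]
  refine sum_congr rfl fun p _ => ?_
  ring

theorem pf_RZB : T_RZB := by
  intro s A d c ⟨x, hx, hz⟩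
  obtain ⟨j₁, hj₁⟩ : ∃ j, x j ≠ 0 := by
    by_contra hcon
    push Not at hcon
    exact hx (funext hcon)
  obtain ⟨j₀, -, hj₀⟩ := exists_max_image univ (fun j => |x j|) ⟨j₁, mem_univ _⟩
  have hpos : 0 < |x j₀| := (abs_pos.2 hj₁).trans_le (hj₀ j₁ (mem_univ _))
  obtain ⟨y, hy⟩ : ∃ y : Fin s → ℝ, y = fun j => |x j₀|⁻¹ * x j := ⟨_, rfl⟩
  have h1 : ∀ j, |y j| ≤ 1 := by
    intro j
    rw [hy]
    show |(|x j₀|⁻¹ * x j)| ≤ 1
    rw [abs_mul, abs_inv, abs_abs, inv_mul_le_one₀ hpos]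
    exact hj₀ j (mem_univ _)
  have h2 : |y j₀| = 1 := by
    rw [hy]
    show |(|x j₀|⁻¹ * x j₀)| = 1
    rw [abs_mul, abs_inv, abs_abs, inv_mul_cancel₀ hpos.ne']
  have h3 : ∀ i, qf (cm ℝ c i) y = 0 := by
    intro i
    rw [hy, qf_smul, hz i, mul_zero]
  by_cases h : ∃ j l, d * (A : ℝ) ^ 2 ≤ |jm (cm ℝ c) y j l|
  · left
    refine ⟨y, h1, ⟨j₀, h2⟩, fun i => ?_, h⟩
    rw [h3 i, abs_zero, zero_mul]
  · right
    push Not at h
    exact ⟨y, h1, ⟨j₀, h2⟩, h3, h⟩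

end Pool.Agent.H42.RQ
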